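import Pool.Agent.Work.MP_db9399_bg.Base

/-! MP_db9399, THEOREM BIG, block DEEPF: few vertices of a near-component are not deep. -/

set_option autoImplicit false

namespace Pool.Agent.Work.MP_db9399_bg.helper27

open Finset Classical
open Pool.Agent.Work.MP_db9399_all (nb)
open Pool.Agent.Work.MP_db9399_px (LWalk hit ee)

universe u

section basics
variable {V : Type u} [Fintype V]

theorem ee_symm' (G : SimpleGraph V) (A B : Finset V) : ee G A B = ee G B A := by
  have h := Finset.sum_card_bipartiteAbove_eq_sum_card_bipartiteBelow (s := A) (t := B) G.Adj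
  have h1 : ∀ x, nb G x ∩ B = B.bipartiteAbove G.Adj x := by
    intro x; ext w; simp [Finset.bipartiteAbove, mem_nb, and_comm]
  have h2 : ∀ y, nb G y ∩ A = A.bipartiteBelow G.Adj y := by
    intro y; ext w; simp [Finset.bipartiteBelow, mem_nb, and_comm, G.adj_comm]
  unfold ee
  simp only [h1, h2]
  exact_mod_cast h

theorem ee_nonneg' (G : SimpleGraph V) (A B : Finset V) : 0 ≤ ee G A B :=
  Finset.sum_nonneg (fun _ _ => Nat.cast_nonneg _)

theorem ee_mono_left (G : SimpleGraph V) {A A' : Finset V} (B : Finset V) (h : A ⊆ A') :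
    ee G A B ≤ ee G A' B :=
  Finset.sum_le_sum_of_subset_of_nonneg h (fun _ _ _ => Nat.cast_nonneg _)

theorem ee_mono_right (G : SimpleGraph V) (A : Finset V) {B B' : Finset V} (h : B ⊆ B') :
    ee G A B ≤ ee G A B' :=
  Finset.sum_le_sum (fun _ _ => by
    exact_mod_cast card_le_card (inter_subset_inter_left h))

theorem ee_cover (G : SimpleGraph V) (A B B1 B2 : Finset V) (h : B ⊆ B1 ∪ B2) :
    ee G A B ≤ ee G A B1 + ee G A B2 := by
  unfold ee
  rw [← Finset.sum_add_distrib]
  refine Finset.sum_le_sum (fun x _ => ?_)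
  have h1 : nb G x ∩ B ⊆ (nb G x ∩ B1) ∪ (nb G x ∩ B2) := by
    intro w hw
    rw [mem_inter] at hw
    rcases mem_union.1 (h hw.2) with h1 | h1
    · exact mem_union_left _ (mem_inter.2 ⟨hw.1, h1⟩)
    · exact mem_union_right _ (mem_inter.2 ⟨hw.1, h1⟩)
  exact_mod_cast (card_le_card h1).trans (card_union_le _ _)

/-- upper bound by the degrees of the left side into the right side -/
theorem ee_le_mul (G : SimpleGraph V) (A B : Finset V) (x : ℝ)
    (h : ∀ v ∈ A, ((nb G v ∩ B).card : ℝ) ≤ x) : ee G A B ≤ A.card * x := by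
  unfold ee
  calc ∑ a ∈ A, ((nb G a ∩ B).card : ℝ) ≤ ∑ _a ∈ A, x := Finset.sum_le_sum h
    _ = A.card * x := by rw [Finset.sum_const, nsmul_eq_mul]

/-- upper bound by the degrees of the right side into the left side -/
theorem ee_le_mul' (G : SimpleGraph V) (A B : Finset V) (x : ℝ)
    (h : ∀ v ∈ B, ((nb G v ∩ A).card : ℝ) ≤ x) : ee G A B ≤ B.card * x := by
  rw [ee_symm']
  exact ee_le_mul G B A x h

/-- Markov -/
theorem markov_ee (G : SimpleGraph V) (A B : Finset V) (x : ℝ) (W : Finset V) (hW : W ⊆ A)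
    (h : ∀ v ∈ W, x ≤ ((nb G v ∩ B).card : ℝ)) : W.card * x ≤ ee G A B := by
  refine le_trans ?_ (ee_mono_left G B hW)
  unfold ee
  calc (W.card : ℝ) * x = ∑ _a ∈ W, x := by rw [Finset.sum_const, nsmul_eq_mul]
    _ ≤ _ := Finset.sum_le_sum h

end basics

/-- the constants -/
noncomputable def KK (e : ℝ) : ℕ → ℝ
  | 0 => 2 / e
  | j + 1 => KK e j + (1 + 2 * KK e j) / e

theorem KK_pos {e : ℝ} (he : 0 < e) : ∀ j, 0 < KK e j
  | 0 => by unfold KK; positivity
  | j + 1 => by
    have h := KK_pos he j
    unfold KK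
    positivity

/-- the sets -/
noncomputable def YY {V : Type u} [Fintype V] (G : SimpleGraph V) (x y : ℝ) (Vg Y C : Finset V) :
    ℕ → Finset V
  | 0 => Y.filter (fun v => ((nb G v ∩ (Vg \ C)).card : ℝ) ≤ x)
  | j + 1 => (YY G x y Vg Y C j).filter (fun v => ((nb G v \ YY G x y Vg Y C j).card : ℝ) ≤ y)

theorem stmt_DEEPF : Stmt_DEEPF.{u} := by
  intro g hg
  have he : 0 < g / 100 := by positivity
  refine ⟨KK (g / 100) (r0 g), KK_pos he _, ?_⟩
  intro V _ G d N Vg Y C ε hN hd hε hdeg hdegV h1 h2 h3 h4
  set e : ℝ := g / 100 with hedef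
  have hN' : (0 : ℝ) < N := by exact_mod_cast hN
  have hd' : (0 : ℝ) < d := by exact_mod_cast hd
  set a : ℝ := (((Y ∩ Vg) \ C).card : ℝ) with hadef
  have ha : 0 ≤ a := Nat.cast_nonneg _
  have hYc : (0 : ℝ) ≤ Y.card := Nat.cast_nonneg _
  set t : ℝ := ε * Y.card + N * a with ht
  have ht0 : 0 ≤ t := by positivity
  have hta : ε * Y.card ≤ t := by
    have : 0 ≤ N * a := by positivity
    linarith
  set Z := YY G (g / 100 * d / N) (g / 100 * d) Vg Y C with hZ
  have hsub0 : Z 0 ⊆ Y := by
    rw [hZ]; unfold YY; exact filter_subset _ _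
  have hsubs : ∀ j, Z (j + 1) ⊆ Z j := by
    intro j
    rw [hZ]
    conv_lhs => unfold YY
    exact filter_subset _ _
  have hsub : ∀ j, Z j ⊆ Y := by
    intro j
    induction j with
    | zero => exact hsub0
    | succ j ih => exact (hsubs j).trans ih
  have hdegr : ∀ v (B : Finset V), ((nb G v ∩ B).card : ℝ) ≤ d := fun v B => by
    exact_mod_cast (card_le_card inter_subset_left).trans (hdeg v)
  -- main estimate
  have key : ∀ j, ((Y \ Z j).card : ℝ) ≤ KK e j * t ∧
      (((Y \ Z j) ∩ Vg).card : ℝ) ≤ KK e j * t / N := by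
    intro j
    induction j with
    | zero =>
      have hmem : ∀ v ∈ Y \ Z 0, e * d / N ≤ ((nb G v ∩ (Vg \ C)).card : ℝ) := by
        intro v hv
        rw [mem_sdiff, hZ] at hv
        unfold YY at hv
        rw [mem_filter] at hv
        by_contra hlt
        push Not at hlt
        exact hv.2 ⟨hv.1, hlt.le⟩
      have hcov : Vg \ C ⊆ (Vg \ Y) ∪ ((Y ∩ Vg) \ C) := by
        intro v hv
        rw [mem_sdiff] at hv
        by_cases hY : v ∈ Y
        · exact mem_union_right _ (mem_sdiff.2 ⟨mem_inter.2 ⟨hY, hv.1⟩, hv.2⟩)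
        · exact mem_union_left _ (mem_sdiff.2 ⟨hv.1, hY⟩)
      constructor
      · have m1 := markov_ee G Y (Vg \ C) (e * d / N) (Y \ Z 0) sdiff_subset hmem
        have m2 := ee_cover G Y (Vg \ C) (Vg \ Y) ((Y ∩ Vg) \ C) hcov
        have m3 := ee_le_mul' G Y ((Y ∩ Vg) \ C) d (fun v _ => hdegr v Y)
        have m4 : ((Y \ Z 0).card : ℝ) * (e * d / N) ≤ (d / N) * t := by
          calc ((Y \ Z 0).card : ℝ) * (e * d / N) ≤ ε * (d / N) * Y.card + a * d := by
                linarith [m1, m2, m3, h3]
            _ = (d / N) * t := by rw [ht]; field_simp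
        have m5 : ((Y \ Z 0).card : ℝ) * e ≤ t := by
          have hdN : 0 < (d : ℝ) / N := by positivity
          have : (d / N : ℝ) * (((Y \ Z 0).card : ℝ) * e) ≤ (d / N) * t := by
            calc (d / N : ℝ) * (((Y \ Z 0).card : ℝ) * e) = ((Y \ Z 0).card : ℝ) * (e * d / N) := by
                  ring
              _ ≤ _ := m4
          exact le_of_mul_le_mul_left this hdN
        unfold KK
        calc ((Y \ Z 0).card : ℝ) ≤ t / e := by
              rw [le_div_iff₀ he]; exact m5
          _ ≤ 2 / e * t := by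
              rw [div_mul_eq_mul_div]
              exact div_le_div_of_nonneg_right (by linarith) he.le
      · have m1 := markov_ee G (Y ∩ Vg) (Vg \ C) (e * d / N) ((Y \ Z 0) ∩ Vg)
          (inter_subset_inter_right sdiff_subset) (fun v hv => hmem v (mem_inter.1 hv).1)
        have m2 := ee_cover G (Y ∩ Vg) (Vg \ C) (Vg \ Y) ((Y ∩ Vg) \ C) hcov
        have m3 := ee_le_mul' G (Y ∩ Vg) ((Y ∩ Vg) \ C) (2 * d / N) (fun v _ => by
          refine le_trans ?_ (hdegV v)
          exact_mod_cast card_le_card (inter_subset_inter_left inter_subset_right))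
        have m4 : (((Y \ Z 0) ∩ Vg).card : ℝ) * (e * d / N) ≤ (d / N) * (2 * t / N) := by
          calc (((Y \ Z 0) ∩ Vg).card : ℝ) * (e * d / N) ≤
              ε * (d / (N : ℝ) ^ 2) * Y.card + a * (2 * d / N) := by
                linarith [m1, m2, m3, h4]
            _ ≤ ε * (d / (N : ℝ) ^ 2) * (2 * Y.card) + a * (2 * d / N) := by
                have : 0 ≤ ε * (d / (N : ℝ) ^ 2) * Y.card := by positivity
                linarith
            _ = (d / N) * (2 * t / N) := by rw [ht]; field_simp
        have m5 : (((Y \ Z 0) ∩ Vg).card : ℝ) * e ≤ 2 * t / N := by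
          have hdN : 0 < (d : ℝ) / N := by positivity
          have : (d / N : ℝ) * ((((Y \ Z 0) ∩ Vg).card : ℝ) * e) ≤ (d / N) * (2 * t / N) := by
            calc (d / N : ℝ) * ((((Y \ Z 0) ∩ Vg).card : ℝ) * e) =
                  (((Y \ Z 0) ∩ Vg).card : ℝ) * (e * d / N) := by ring
              _ ≤ _ := m4
          exact le_of_mul_le_mul_left this hdN
        unfold KK
        calc (((Y \ Z 0) ∩ Vg).card : ℝ) ≤ (2 * t / N) / e := by
              rw [le_div_iff₀ he]; exact m5
          _ = 2 / e * t / N := by field_simp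
    | succ j ih =>
      obtain ⟨ih1, ih2⟩ := ih
      have hcov : Y \ Z (j + 1) ⊆ (Y \ Z j) ∪ (Z j \ Z (j + 1)) := by
        intro v hv
        rw [mem_sdiff] at hv
        by_cases hj : v ∈ Z j
        · exact mem_union_right _ (mem_sdiff.2 ⟨hj, hv.2⟩)
        · exact mem_union_left _ (mem_sdiff.2 ⟨hv.1, hj⟩)
      have hmem : ∀ v ∈ Z j \ Z (j + 1), e * d ≤ ((nb G v ∩ (univ \ Z j)).card : ℝ) := by
        intro v hv
        rw [mem_sdiff, hZ] at hv
        conv at hv => rhs; unfold YY
        rw [mem_filter] at hv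
        by_contra hlt
        push Not at hlt
        have hh : nb G v \ YY G (g / 100 * d / N) (g / 100 * d) Vg Y C j =
            nb G v ∩ (univ \ Z j) := by
          ext w
          simp only [mem_sdiff, mem_inter, mem_univ, true_and, hZ]
        apply hv.2
        refine ⟨hv.1, ?_⟩
        rw [hh]
        exact hlt.le
      have hcov2 : univ \ Z j ⊆ (univ \ Y) ∪ (Y \ Z j) := by
        intro v hv
        rw [mem_sdiff] at hv
        by_cases hY : v ∈ Y
        · exact mem_union_right _ (mem_sdiff.2 ⟨hY, hv.2⟩)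
        · exact mem_union_left _ (mem_sdiff.2 ⟨mem_univ _, hY⟩)
      constructor
      · have m1 := markov_ee G Y (univ \ Z j) (e * d) (Z j \ Z (j + 1))
          (sdiff_subset.trans (hsub j)) hmem
        have m2 := ee_cover G Y (univ \ Z j) (univ \ Y) (Y \ Z j) hcov2
        have m3 := ee_le_mul' G Y (Y \ Z j) d (fun v _ => hdegr v Y)
        have m4 : (((Z j \ Z (j + 1)).card : ℝ) * e) ≤ t + KK e j * t := by
          have : (d : ℝ) * (((Z j \ Z (j + 1)).card : ℝ) * e) ≤ d * (t + KK e j * t) := by
            calc (d : ℝ) * (((Z j \ Z (j + 1)).card : ℝ) * e) =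
                  ((Z j \ Z (j + 1)).card : ℝ) * (e * d) := by ring
              _ ≤ ε * d * Y.card + (Y \ Z j).card * d := by linarith
              _ ≤ d * t + KK e j * t * d := by
                  have := mul_le_mul_of_nonneg_left hta hd'.le
                  have := mul_le_mul_of_nonneg_right ih1 hd'.le
                  linarith
              _ = _ := by ring
          exact le_of_mul_le_mul_left this hd'
        have m5 : ((Z j \ Z (j + 1)).card : ℝ) ≤ (t + KK e j * t) / e := by
          rw [le_div_iff₀ he]; exact m4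
        have m6 : ((Y \ Z (j + 1)).card : ℝ) ≤ (Y \ Z j).card + (Z j \ Z (j + 1)).card := by
          exact_mod_cast (card_le_card hcov).trans (card_union_le _ _)
        have hK := KK_pos he j
        calc ((Y \ Z (j + 1)).card : ℝ) ≤ KK e j * t + (t + KK e j * t) / e := by linarith
          _ ≤ KK e j * t + (t + 2 * KK e j * t) / e := by
              have : 0 ≤ KK e j * t := by positivity
              have := div_le_div_of_nonneg_right (show t + KK e j * t ≤ t + 2 * KK e j * t by
                linarith) he.le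
              linarith
          _ = KK e (j + 1) * t := by
              conv_rhs => unfold KK
              ring
      · have m1 := markov_ee G (Y ∩ Vg) (univ \ Z j) (e * d) ((Z j \ Z (j + 1)) ∩ Vg)
          (inter_subset_inter_right (sdiff_subset.trans (hsub j)))
          (fun v hv => hmem v (mem_inter.1 hv).1)
        have m2 := ee_cover G (Y ∩ Vg) (univ \ Z j) (univ \ Y) (Y \ Z j) hcov2
        have m3 := ee_le_mul' G (Y ∩ Vg) (Y \ Z j) (2 * d / N) (fun v _ => by
          refine le_trans ?_ (hdegV v)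
          exact_mod_cast card_le_card (inter_subset_inter_left inter_subset_right))
        have m4 : ((((Z j \ Z (j + 1)) ∩ Vg).card : ℝ) * e) ≤ (t + 2 * KK e j * t) / N := by
          have : (d : ℝ) * ((((Z j \ Z (j + 1)) ∩ Vg).card : ℝ) * e) ≤
              d * ((t + 2 * KK e j * t) / N) := by
            calc (d : ℝ) * ((((Z j \ Z (j + 1)) ∩ Vg).card : ℝ) * e) =
                  (((Z j \ Z (j + 1)) ∩ Vg).card : ℝ) * (e * d) := by ring
              _ ≤ ε * (d / N) * Y.card + (Y \ Z j).card * (2 * d / N) := by linarith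
              _ ≤ (d / N) * t + KK e j * t * (2 * d / N) := by
                  have q1 := mul_le_mul_of_nonneg_left hta (show (0 : ℝ) ≤ d / N by positivity)
                  have q2 := mul_le_mul_of_nonneg_right ih1
                    (show (0 : ℝ) ≤ 2 * d / N by positivity)
                  have q3 : ε * (d / N) * (Y.card : ℝ) = d / N * (ε * Y.card) := by ring
                  linarith
              _ = _ := by field_simp
          exact le_of_mul_le_mul_left this hd'
        have m5 : (((Z j \ Z (j + 1)) ∩ Vg).card : ℝ) ≤ (t + 2 * KK e j * t) / N / e := by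
          rw [le_div_iff₀ he]; exact m4
        have hcov3 : (Y \ Z (j + 1)) ∩ Vg ⊆ ((Y \ Z j) ∩ Vg) ∪ ((Z j \ Z (j + 1)) ∩ Vg) := by
          rw [← union_inter_distrib_right]
          exact inter_subset_inter_right hcov
        have m6 : (((Y \ Z (j + 1)) ∩ Vg).card : ℝ) ≤
            ((Y \ Z j) ∩ Vg).card + ((Z j \ Z (j + 1)) ∩ Vg).card := by
          exact_mod_cast (card_le_card hcov3).trans (card_union_le _ _)
        calc (((Y \ Z (j + 1)) ∩ Vg).card : ℝ) ≤
              KK e j * t / N + (t + 2 * KK e j * t) / N / e := by linarith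
          _ = KK e (j + 1) * t / N := by
              conv_rhs => unfold KK
              field_simp
  have hfin : (Y ∩ Vg).filter (fun v => ¬ Deep g G d N Vg C v) ⊆ (Y \ Z (r0 g)) ∩ Vg := by
    intro v hv
    rw [mem_filter, mem_inter] at hv
    rw [mem_inter, mem_sdiff]
    refine ⟨⟨hv.1.1, fun hz => hv.2 ?_⟩, hv.1.2⟩
    refine ⟨Z, hsubs, ?_, ?_, hz⟩
    · intro w hw
      rw [hZ] at hw
      unfold YY at hw
      exact (mem_filter.1 hw).2
    · intro j _ w hw
      rw [hZ] at hw ⊢
      conv at hw => unfold YY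
      exact (mem_filter.1 hw).2
  have h5 : ((((Y ∩ Vg).filter (fun v => ¬ Deep g G d N Vg C v)).card : ℕ) : ℝ) ≤
      (((Y \ Z (r0 g)) ∩ Vg).card : ℝ) := by exact_mod_cast card_le_card hfin
  refine h5.trans ((key (r0 g)).2.trans (le_of_eq ?_))
  rw [ht]
  field_simp

end Pool.Agent.Work.MP_db9399_bg.helper27
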